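import Mathlib
import Pool.Agent.H243.ProjAlg

/-!
MP_3db952_lc (Q1).  There is no universal countable projective algebra of plane sets.
-/

namespace Pool.Agent.Results.MP_3db952_lc.NoUniversal

open Pool.Agent.H243.ProjAlg

/-- For every countable projective algebra `U` of plane sets there is a countable projective
algebra of plane sets, generated by one plane set, which is isomorphic to no subalgebra of `U`;
consequently no countable projective algebra is universal. -/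
theorem result :
    (∀ U : Set (Set (ℝ × ℝ)), IsProjAlg U → U.Countable →
      ∃ S : Set (ℝ × ℝ), IsProjAlg (gen {S}) ∧ (gen {S}).Countable ∧
        ¬ ∃ V : Set (Set (ℝ × ℝ)), V ⊆ U ∧ IsProjAlg V ∧ Iso (gen {S}) V) ∧
    ¬ ∃ U : Set (Set (ℝ × ℝ)), IsProjAlg U ∧ U.Countable ∧
      ∀ A : Set (Set (ℝ × ℝ)), IsProjAlg A → A.Countable →
        ∃ V : Set (Set (ℝ × ℝ)), V ⊆ U ∧ IsProjAlg V ∧ Iso A V := by
  have key : ∀ U : Set (Set (ℝ × ℝ)), IsProjAlg U → U.Countable →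
      ∃ S : Set (ℝ × ℝ), IsProjAlg (gen {S}) ∧ (gen {S}).Countable ∧
        ¬ ∃ V : Set (Set (ℝ × ℝ)), V ⊆ U ∧ IsProjAlg V ∧ Iso (gen {S}) V := by
    intro U _ hU
    obtain ⟨Z, hZ⟩ := no_universal U hU
    refine ⟨R Z, isProjAlg_gen _, countable_FZ Z, ?_⟩
    rintro ⟨V, h1, h2, h3⟩
    exact hZ ⟨V, h1, h2, h3⟩
  refine ⟨key, ?_⟩
  rintro ⟨U, hU, hc, h⟩
  obtain ⟨S, h1, h2, h3⟩ := key U hU hc
  exact h3 (h _ h1 h2)

end Pool.Agent.Results.MP_3db952_lc.NoUniversal
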